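import Pool.Agent.W5h3.TF.Cert

/-!
# Toads and Frogs: the value of `T^7 □^7 F^6` is neither `1` nor `1*`

Left wins `T^7 □^7 F^6 - 1` no matter who starts.  So `T^7 □^7 F^6 - 1` is not a second-player win,
and in `T^7 □^7 F^6 - 1*` Left wins moving first, by her move from `-1*` to `-1`.  The strategy of
Left is a list of 16161 positions, checked by the kernel.
-/

set_option autoImplicit false

namespace Pool.Agent.Results.MP_a6e7b1_co.SevenToads

open Pool.Agent.W5h3.TF Pool.Agent.W5h3.TF.Game

theorem not_both (G : Game) : ∀ b : Bool, LeftWins G b → RightWins G b → False := by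
  induction G with
  | mk L R l r ihl ihr =>
    intro b h1 h2
    cases b
    · obtain ⟨j, hj⟩ := h2
      exact ihr j true (h1 j) hj
    · obtain ⟨i, hi⟩ := h1
      exact ihl i false hi (h2 i)

theorem start_eq : start 7 7 6 = dec 127 1032192 := by
  funext i
  revert i
  decide

theorem second : LeftWins (add (toGame (start 7 7 6)) (neg one)) false := by
  rw [start_eq]
  exact main_sound root_all _ 127 1032192 1 rfl (by norm_num) (by norm_num) (by decide +kernel)

theorem first : LeftWins (add (toGame (start 7 7 6)) (neg one)) true := by
  rw [start_eq]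
  have hrep : rep Data.root 127 1032192 1 6 = true := by decide +kernel
  obtain ⟨T', hmove, hmem⟩ := rep_sound (disj_of_land (by decide)) hrep
  exact lw_true _ _ _ hmove
    (main_sound root_all _ T' 1032192 1 rfl (by norm_num) (by norm_num) hmem)

/-- The value of the Toads and Frogs position `T^7 □^7 F^6` is neither `1` nor `1*`. -/
theorem result : ¬ Equal (toGame (start 7 7 6)) one ∧ ¬ Equal (toGame (start 7 7 6)) oneStar := by
  refine ⟨fun h => not_both _ true first h.2, fun h => not_both _ true ?_ h.2⟩
  have h2 := second
  rw [toGame_eq] at h2 ⊢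
  exact ⟨Sum.inr (), h2⟩

end Pool.Agent.Results.MP_a6e7b1_co.SevenToads
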